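import Mathlib
import Pool.Agent.LinesCross.Circ

namespace Pool.Agent.Results.MP_b5bf4a_co.OddValues

/-- A geometric graph: a finite set `pts` of points of the plane, no three of them collinear,
and a finite set `edges` of unordered pairs of distinct points of `pts`. -/
structure GeomGraph where
  pts : Finset (ℝ × ℝ)
  no_three_collinear : ∀ p ∈ pts, ∀ q ∈ pts, ∀ r ∈ pts, p ≠ q → p ≠ r → q ≠ r →
    ¬ Collinear ℝ ({p, q, r} : Set (ℝ × ℝ))
  edges : Finset (Sym2 (ℝ × ℝ))
  edge_mem : ∀ e ∈ edges, ∀ p ∈ e, p ∈ pts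
  edge_ne : ∀ e ∈ edges, ¬ e.IsDiag

/-- A straight line of the plane. -/
def IsLine (l : Set (ℝ × ℝ)) : Prop :=
  ∃ a b c : ℝ, (a ≠ 0 ∨ b ≠ 0) ∧ l = {x | a * x.1 + b * x.2 = c}

/-- The relative interior of the segment drawn for an edge. -/
def inner (e : Sym2 (ℝ × ℝ)) : Set (ℝ × ℝ) := {x | ∃ u v, e = s(u, v) ∧ x ∈ openSegment ℝ u v}

open Classical in
/-- The number of edges of `G` whose relative interior is met by `l`. -/
noncomputable def GeomGraph.met (G : GeomGraph) (l : Set (ℝ × ℝ)) : ℕ :=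
  (G.edges.filter (fun e => (inner e ∩ l).Nonempty)).card

/-- `f n K`: the least `e` such that every geometric graph on `n` points with at least `e` edges
has a line meeting at least `K` of its edges. -/
noncomputable def f (n K : ℕ) : ℕ :=
  sInf {e : ℕ | ∀ G : GeomGraph, G.pts.card = n → e ≤ G.edges.card →
    ∃ l, IsLine l ∧ K ≤ G.met l}

open Pool.Agent.LinesCross

/-! ### upper bound -/

theorem allLines_of (G : GeomGraph) (C : ℕ) (h : ¬ ∃ l, IsLine l ∧ C + 1 ≤ G.met l) :
    AllLinesLe G.pts G.edges C := by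
  classical
  intro a b c hab hc
  push Not at h
  have h1 := h {x | a * x.1 + b * x.2 = c} ⟨a, b, c, hab, rfl⟩
  refine le_trans (Finset.card_le_card ?_) (Nat.le_of_lt_succ h1)
  intro e he
  rw [Finset.mem_filter] at he ⊢
  obtain ⟨he, u, v, rfl, hu, hv⟩ := he
  refine ⟨he, ?_⟩
  set Fu := a * u.1 + b * u.2 with hFu
  set Fv := a * v.1 + b * v.2 with hFv
  have hd : 0 < Fv - Fu := by linarith
  refine ⟨((Fv - c) / (Fv - Fu)) • u + ((c - Fu) / (Fv - Fu)) • v,
    ⟨u, v, rfl, (Fv - c) / (Fv - Fu), (c - Fu) / (Fv - Fu), div_pos (by linarith) hd,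
      div_pos (by linarith) hd, by field_simp; ring, rfl⟩, ?_⟩
  show a * _ + b * _ = c
  simp only [Prod.fst_add, Prod.smul_fst, Prod.snd_add, Prod.smul_snd, smul_eq_mul]
  have : a * ((Fv - c) / (Fv - Fu) * u.1 + (c - Fu) / (Fv - Fu) * v.1) +
      b * ((Fv - c) / (Fv - Fu) * u.2 + (c - Fu) / (Fv - Fu) * v.2) =
      ((Fv - c) * Fu + (c - Fu) * Fv) / (Fv - Fu) := by
    rw [hFu, hFv]; ring
  rw [this]
  field_simp
  ring

/-- groups of sizes `k+1`, `k+2` -/
theorem upper1 (G : GeomGraph) (k b m r : ℕ) (hb : b ≤ k + 1) (hm : 1 ≤ m) (hr : r ≤ 2 * m)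
    (hn : G.pts.card = 2 * m * (k + 1) + r) (hK : AllLinesLe G.pts G.edges (k ^ 2 + k + 2 * b)) :
    (k + 1) * G.edges.card ≤ (k * (k + 1) + b) * G.pts.card + (k + 1 - b) * r := by
  obtain ⟨d, hd⟩ : ∃ d, k + 1 = b + d := ⟨k + 1 - b, by omega⟩
  have hd' : k + 1 - b = d := by omega
  rw [hd']
  have := plane_gen G.pts G.edges G.no_three_collinear G.edge_mem G.edge_ne (k + 1) (by omega)
    (k ^ 2 + k + 2 * b) (k + 1) (2 * (k * (k + 1) + b)) 0 (2 * d)
    (by nlinarith) (by nlinarith) hK m hm (2 * m - r) r (by omega)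
    (by
      rw [hn]
      obtain ⟨t, ht⟩ : ∃ t, 2 * m = t + r := ⟨2 * m - r, by omega⟩
      rw [ht]; simp only [Nat.add_sub_cancel]; ring)
  nlinarith

/-- groups of sizes `k`, `k+1` -/
theorem upper2 (G : GeomGraph) (k b m r : ℕ) (hk : 1 ≤ k) (hb : b ≤ k + 1) (hm : 1 ≤ m)
    (hr : r ≤ 2 * m)
    (hn : G.pts.card + r = 2 * m * (k + 1)) (hK : AllLinesLe G.pts G.edges (k ^ 2 + k + 2 * b)) :
    (k + 1) * G.edges.card ≤ (k * (k + 1) + b) * G.pts.card + b * r := by
  have := plane_gen G.pts G.edges G.no_three_collinear G.edge_mem G.edge_ne k hk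
    (k ^ 2 + k + 2 * b) (k + 1) (2 * (k * (k + 1) + b)) (2 * b) 0
    (by nlinarith) (by nlinarith) hK m hm r (2 * m - r) (by omega)
    (by
      obtain ⟨t, ht⟩ : ∃ t, 2 * m = t + r := ⟨2 * m - r, by omega⟩
      rw [ht] at hn ⊢; simp only [Nat.add_sub_cancel]; nlinarith)
  nlinarith

/-! ### lower bound: chords of points on a parabola -/

/-- the points -/
noncomputable def pt (i : ℕ) : ℝ × ℝ := ((i : ℝ), (i : ℝ) ^ 2)

theorem pt_inj {i j : ℕ} (h : pt i = pt j) : i = j := by
  have := congrArg Prod.fst h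
  simpa [pt] using this

theorem pt_gp {a b c : ℕ} (hab : a ≠ b) (hac : a ≠ c) (hbc : b ≠ c) :
    ¬ Collinear ℝ ({pt a, pt b, pt c} : Set (ℝ × ℝ)) := by
  intro h
  rw [collinear_iff_of_mem (p₀ := pt a) (by simp)] at h
  obtain ⟨v, hv⟩ := h
  obtain ⟨s, hs⟩ := hv (pt b) (by simp)
  obtain ⟨t, ht⟩ := hv (pt c) (by simp)
  have s1 := congrArg Prod.fst hs
  have s2 := congrArg Prod.snd hs
  have t1 := congrArg Prod.fst ht
  have t2 := congrArg Prod.snd ht
  simp only [pt, vadd_eq_add, Prod.fst_add, Prod.snd_add, Prod.smul_fst, Prod.smul_snd,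
    smul_eq_mul] at s1 s2 t1 t2
  have e1 : (b : ℝ) - a = s * v.1 := by linarith
  have e2 : (b : ℝ) ^ 2 - a ^ 2 = s * v.2 := by linarith
  have e3 : (c : ℝ) - a = t * v.1 := by linarith
  have e4 : (c : ℝ) ^ 2 - a ^ 2 = t * v.2 := by linarith
  have key : ((b : ℝ) - a) * (c - a) * (c - b) = 0 := by
    have : ((b : ℝ) - a) * (c - a) * (c - b) =
      (b - a) * (c ^ 2 - a ^ 2) - (b ^ 2 - a ^ 2) * (c - a) := by ring
    rw [this, e1, e2, e3, e4]; ring
  have h1 : (b : ℝ) - a ≠ 0 := sub_ne_zero.2 (by exact_mod_cast hab.symm)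
  have h2 : (c : ℝ) - a ≠ 0 := sub_ne_zero.2 (by exact_mod_cast hac.symm)
  have h3 : (c : ℝ) - b ≠ 0 := sub_ne_zero.2 (by exact_mod_cast hbc.symm)
  exact (mul_ne_zero (mul_ne_zero h1 h2) h3) key

/-- edge of an index -/
noncomputable def ed (n : ℕ) (x : ℕ × ℕ) : Sym2 (ℝ × ℝ) := s(pt x.1, pt ((x.1 + x.2) % n))

theorem ed_inj (n k b : ℕ) (hn : 2 * k + 3 ≤ n) : Set.InjOn (ed n) (Idx n k b : Set (ℕ × ℕ)) := by
  rintro ⟨i, d⟩ hx ⟨j, d'⟩ hy hxy
  simp only [Idx, Finset.coe_filter, Set.mem_ofPred_eq, Finset.mem_product, Finset.mem_range,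
    Finset.mem_Icc] at hx hy
  obtain ⟨⟨hi, hd1, hd2⟩, _⟩ := hx
  obtain ⟨⟨hj, hd1', hd2'⟩, _⟩ := hy
  have hn0 : 0 < n := by omega
  have hcase : ∀ i d : ℕ, i < n → d ≤ k + 1 → ((i + d) % n = i + d ∧ i + d < n) ∨
      ((i + d) % n + n = i + d ∧ n ≤ i + d) := by
    intro i d hi hd
    rcases Nat.lt_or_ge (i + d) n with h | h
    · left; exact ⟨Nat.mod_eq_of_lt h, h⟩
    · right
      have : (i + d) % n = i + d - n := by
        rw [Nat.mod_eq_sub_mod h, Nat.mod_eq_of_lt (by omega)]
      omega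
  simp only [ed, Sym2.eq_iff] at hxy
  have c1 := hcase i d hi hd2
  have c2 := hcase j d' hj hd2'
  rw [Prod.mk.injEq]
  rcases hxy with ⟨h1, h2⟩ | ⟨h1, h2⟩
  · have := pt_inj h1
    have := pt_inj h2
    omega
  · have := pt_inj h1
    have := pt_inj h2
    omega

/-- the geometric graph -/
noncomputable def ex (n k b : ℕ) (hn : 2 * k + 3 ≤ n) : GeomGraph where
  pts := (Finset.range n).image pt
  no_three_collinear := by
    intro p hp q hq r hr hpq hpr hqr
    rw [Finset.mem_image] at hp hq hr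
    obtain ⟨i, _, rfl⟩ := hp
    obtain ⟨j, _, rfl⟩ := hq
    obtain ⟨l, _, rfl⟩ := hr
    exact pt_gp (fun h => hpq (by rw [h])) (fun h => hpr (by rw [h])) (fun h => hqr (by rw [h]))
  edges := (Idx n k b).image (ed n)
  edge_mem := by
    intro e he p hp
    rw [Finset.mem_image] at he
    obtain ⟨⟨i, d⟩, hi, rfl⟩ := he
    simp only [Idx, Finset.mem_filter, Finset.mem_product, Finset.mem_range] at hi
    simp only [ed, Sym2.mem_iff] at hp
    rw [Finset.mem_image]
    rcases hp with h | h
    · exact ⟨i, Finset.mem_range.2 hi.1.1, h.symm⟩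
    · exact ⟨(i + d) % n, Finset.mem_range.2 (Nat.mod_lt _ (by omega)), h.symm⟩
  edge_ne := by
    intro e he
    rw [Finset.mem_image] at he
    obtain ⟨⟨i, d⟩, hi, rfl⟩ := he
    simp only [Idx, Finset.mem_filter, Finset.mem_product, Finset.mem_range, Finset.mem_Icc] at hi
    simp only [ed, Sym2.mk_isDiag_iff]
    intro h
    have h1 := pt_inj h
    obtain ⟨⟨h2, h3, h4⟩, _⟩ := hi
    rcases Nat.lt_or_ge (i + d) n with h5 | h5
    · rw [Nat.mod_eq_of_lt h5] at h1; omega
    · rw [Nat.mod_eq_sub_mod h5, Nat.mod_eq_of_lt (by omega)] at h1; omega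

theorem ex_pts (n k b : ℕ) (hn : 2 * k + 3 ≤ n) : (ex n k b hn).pts.card = n := by
  show ((Finset.range n).image pt).card = n
  rw [Finset.card_image_of_injective _ (fun i j h => pt_inj h), Finset.card_range]

theorem ex_edges (n k b : ℕ) (hn : 2 * k + 3 ≤ n) (hb : b ≤ k + 1) :
    (ex n k b hn).edges.card = n * k + n * b / (k + 1) := by
  show ((Idx n k b).image (ed n)).card = _
  rw [Finset.card_image_of_injOn (ed_inj n k b hn), card_Idx n k b (by omega) hb]

/-- every line with nonnegative second coefficient separates the points like an interval -/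
theorem line_interval (α β γ : ℝ) (hβ : 0 ≤ β) (hne : α ≠ 0 ∨ β ≠ 0) :
    ∃ P : ℕ → Prop, (∀ i j l, i < j → j < l → P i → P l → P j) ∧
      ∀ i j, i ≠ j → (inner s(pt i, pt j) ∩ {x | α * x.1 + β * x.2 = γ}).Nonempty →
        ¬ (P i ↔ P j) := by
  set q : ℕ → ℝ := fun i => α * i + β * (i : ℝ) ^ 2 - γ with hq
  refine ⟨fun i => q i < 0 ∨ (q i = 0 ∧ α + 2 * β * i < 0), ?_, ?_⟩
  · intro i j l hij hjl hi hl
    have hij' : (0 : ℝ) < j - i := by have : (i : ℝ) < j := by exact_mod_cast hij
                                      linarith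
    have hjl' : (0 : ℝ) < l - j := by have : (j : ℝ) < l := by exact_mod_cast hjl
                                      linarith
    have hid : ((l : ℝ) - i) * q j = (l - j) * q i + (j - i) * q l -
        β * ((j - i) * (l - j) * (l - i)) := by
      rw [hq]; ring
    have hli : (0 : ℝ) < l - i := by linarith
    have hi0 : q i ≤ 0 := by rcases hi with h | h; exact h.le; exact h.1.le
    have hl0 : q l ≤ 0 := by rcases hl with h | h; exact h.le; exact h.1.le
    have t1 : (l - j : ℝ) * q i ≤ 0 := mul_nonpos_of_nonneg_of_nonpos hjl'.le hi0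
    have t2 : (j - i : ℝ) * q l ≤ 0 := mul_nonpos_of_nonneg_of_nonpos hij'.le hl0
    have t3 : 0 ≤ β * (((j : ℝ) - i) * (l - j) * (l - i)) := by positivity
    left
    by_contra hcon
    push Not at hcon
    have t4 : 0 ≤ ((l : ℝ) - i) * q j := mul_nonneg hli.le hcon
    have u1 : (l - j : ℝ) * q i = 0 := by linarith
    have u2 : (j - i : ℝ) * q l = 0 := by linarith
    have u3 : β * (((j : ℝ) - i) * (l - j) * (l - i)) = 0 := by linarith
    have v1 : q i = 0 := by
      rcases mul_eq_zero.1 u1 with h | h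
      · linarith
      · exact h
    have v2 : q l = 0 := by
      rcases mul_eq_zero.1 u2 with h | h
      · linarith
      · exact h
    have v3 : β = 0 := by
      rcases mul_eq_zero.1 u3 with h | h
      · exact h
      · have : 0 < ((j : ℝ) - i) * (l - j) * (l - i) := by positivity
        linarith
    have v4 : α = 0 := by
      have w : α * ((l : ℝ) - i) = 0 := by
        have w1 : q l - q i = α * ((l : ℝ) - i) := by rw [hq, v3]; ring
        rw [← w1, v1, v2]; ring
      rcases mul_eq_zero.1 w with h | h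
      · exact h
      · linarith
    rcases hne with h | h
    · exact h v4
    · exact h v3
  · intro i j hij hmeet
    obtain ⟨x, ⟨u, v, huv, hx⟩, hxl⟩ := hmeet
    have hx' : x ∈ openSegment ℝ (pt i) (pt j) := by
      rw [Sym2.eq_iff] at huv
      rcases huv with ⟨h1, h2⟩ | ⟨h1, h2⟩
      · rw [h1, h2]; exact hx
      · rw [h1, h2, openSegment_symm]; exact hx
    obtain ⟨s, t, hs, ht, hst, rfl⟩ := hx'
    have hval : s * q i + t * q j = 0 := by
      have : α * (s • pt i + t • pt j).1 + β * (s • pt i + t • pt j).2 = γ := hxl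
      simp only [pt, Prod.fst_add, Prod.smul_fst, Prod.snd_add, Prod.smul_snd, smul_eq_mul] at this
      rw [hq]
      have hs' : s = 1 - t := by linarith
      rw [hs'] at this ⊢
      linarith
    simp only
    rcases lt_trichotomy (q i) 0 with h | h | h
    · have hj : 0 < q j := by
        by_contra hcon
        push Not at hcon
        have := mul_neg_of_pos_of_neg hs h
        have := mul_nonpos_of_nonneg_of_nonpos ht.le hcon
        linarith
      intro hiff
      rcases hiff.1 (Or.inl h) with h' | h'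
      · linarith
      · linarith [h'.1]
    · have hj : q j = 0 := by
        rw [h, mul_zero, zero_add] at hval
        rcases mul_eq_zero.1 hval with h' | h'
        · linarith
        · exact h'
      have hsum : α + β * ((i : ℝ) + j) = 0 := by
        have w : ((j : ℝ) - i) * (α + β * (i + j)) = 0 := by
          have w1 : q j - q i = ((j : ℝ) - i) * (α + β * (i + j)) := by rw [hq]; ring
          rw [← w1, h, hj]; ring
        rcases mul_eq_zero.1 w with h' | h'
        · exfalso; apply hij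
          have : (j : ℝ) = i := by linarith
          exact_mod_cast this.symm
        · exact h'
      have hβ' : 0 < β := by
        rcases eq_or_lt_of_le hβ with h' | h'
        · exfalso
          rw [← h'] at hsum
          have : α = 0 := by linarith
          rcases hne with h'' | h''
          · exact h'' this
          · exact h'' h'.symm
        · exact h'
      intro hiff
      have e1 : (q i < 0 ∨ q i = 0 ∧ α + 2 * β * i < 0) ↔ (i : ℝ) < j := by
        rw [h]
        constructor
        · rintro (h' | ⟨_, h'⟩)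
          · exact absurd h' (lt_irrefl _)
          · by_contra hcon
            push Not at hcon
            have := mul_le_mul_of_nonneg_left hcon hβ'.le
            linarith
        · intro h'
          right
          refine ⟨rfl, ?_⟩
          have := mul_lt_mul_of_pos_left h' hβ'
          linarith
      have e2 : (q j < 0 ∨ q j = 0 ∧ α + 2 * β * j < 0) ↔ (j : ℝ) < i := by
        rw [hj]
        constructor
        · rintro (h' | ⟨_, h'⟩)
          · exact absurd h' (lt_irrefl _)
          · by_contra hcon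
            push Not at hcon
            have := mul_le_mul_of_nonneg_left hcon hβ'.le
            linarith
        · intro h'
          right
          refine ⟨rfl, ?_⟩
          have := mul_lt_mul_of_pos_left h' hβ'
          linarith
      rw [e1, e2] at hiff
      rcases lt_or_gt_of_ne (show (i : ℝ) ≠ j by exact_mod_cast hij) with h' | h'
      · have := hiff.1 h'; linarith
      · have := hiff.2 h'; linarith
    · have hj : q j < 0 := by
        by_contra hcon
        push Not at hcon
        have := mul_pos hs h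
        have := mul_nonneg ht.le hcon
        linarith
      intro hiff
      rcases hiff.2 (Or.inl hj) with h' | h'
      · linarith
      · linarith [h'.1]

theorem ex_met (n k b : ℕ) (hn : 2 * k + 3 ≤ n) (l : Set (ℝ × ℝ)) (hl : IsLine l) :
    (ex n k b hn).met l ≤ k ^ 2 + k + 2 * b := by
  classical
  obtain ⟨α, β, γ, hne, rfl⟩ := hl
  -- wlog the second coefficient is nonnegative
  obtain ⟨P, hP1, hP2⟩ : ∃ P : ℕ → Prop, (∀ i j l, i < j → j < l → P i → P l → P j) ∧
      ∀ i j, i ≠ j → (inner s(pt i, pt j) ∩ {x | α * x.1 + β * x.2 = γ}).Nonempty →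
        ¬ (P i ↔ P j) := by
    rcases le_or_gt 0 β with h | h
    · exact line_interval α β γ h hne
    · have : {x : ℝ × ℝ | α * x.1 + β * x.2 = γ} = {x | (-α) * x.1 + (-β) * x.2 = -γ} := by
        ext x
        simp only [Set.mem_ofPred_eq]
        constructor <;> intro h <;> linarith
      rw [this]
      exact line_interval (-α) (-β) (-γ) (by linarith) (by
        rcases hne with h | h
        · exact Or.inl (neg_ne_zero.2 h)
        · exact Or.inr (neg_ne_zero.2 h))
  obtain ⟨p, q, hq, hpq⟩ := interval_of n P hP1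
  refine le_trans ?_ (Idx_cut n k b hn p q hq)
  have hsub : ((ex n k b hn).edges.filter
      (fun e => (inner e ∩ {x | α * x.1 + β * x.2 = γ}).Nonempty)) ⊆
      ((Idx n k b).filter (fun x => ¬ ((p ≤ x.1 ∧ x.1 < q) ↔
      (p ≤ (x.1 + x.2) % n ∧ (x.1 + x.2) % n < q)))).image (ed n) := by
    intro e he
    rw [Finset.mem_filter] at he
    obtain ⟨he, hm⟩ := he
    have he' := he
    change e ∈ (Idx n k b).image (ed n) at he
    rw [Finset.mem_image] at he
    obtain ⟨⟨i, d⟩, hi, rfl⟩ := he
    rw [Finset.mem_image]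
    refine ⟨(i, d), ?_, rfl⟩
    rw [Finset.mem_filter]
    refine ⟨hi, ?_⟩
    simp only [Idx, Finset.mem_filter, Finset.mem_product, Finset.mem_range] at hi
    have hne' : i ≠ (i + d) % n := by
      intro h
      apply (ex n k b hn).edge_ne _ he'
      simp only [ed, Sym2.mk_isDiag_iff]
      rw [← h]
    have h1 := hP2 i ((i + d) % n) hne' hm
    rw [hpq i hi.1.1, hpq _ (Nat.mod_lt _ (by omega))] at h1
    exact h1
  unfold GeomGraph.met
  exact (Finset.card_le_card hsub).trans Finset.card_image_le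

theorem lower (n k b : ℕ) (hn : 2 * k + 3 ≤ n) (hb : b ≤ k + 1) :
    n * k + n * b / (k + 1) + 1 ≤ f n (k ^ 2 + k + 1 + 2 * b) := by
  classical
  apply le_csInf
  · refine ⟨n * n + 1, fun G hG he => ?_⟩
    exfalso
    obtain ⟨t, ht⟩ := exists_shear G.pts
    have h1 := card_le_half G.pts G.edges (fun p => p.1 + t * p.2) ht G.edge_mem G.edge_ne
    have h2 := W_self_le (Adj G.edges) (Adj_self _ G.edge_ne) (Adj_le _) G.pts
    rw [hG] at h2
    omega
  · intro e he
    by_contra hcon
    push Not at hcon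
    obtain ⟨l, hl, hl2⟩ := he (ex n k b hn) (ex_pts n k b hn) (by
      rw [ex_edges n k b hn hb]; omega)
    have := ex_met n k b hn l hl
    omega

theorem upper (n k b F : ℕ)
    (h : ∀ G : GeomGraph, G.pts.card = n → AllLinesLe G.pts G.edges (k ^ 2 + k + 2 * b) →
      G.edges.card ≤ F) : f n (k ^ 2 + k + 1 + 2 * b) ≤ F + 1 := by
  apply Nat.sInf_le
  intro G hG he
  by_contra hcon
  have := h G hG (allLines_of G _ (by
    rintro ⟨l, h1, h2⟩
    exact hcon ⟨l, h1, by omega⟩))
  omega

theorem f_mono (n K : ℕ) : f n K ≤ f n (K + 1) := by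
  classical
  have hne : {e : ℕ | ∀ G : GeomGraph, G.pts.card = n → e ≤ G.edges.card →
      ∃ l, IsLine l ∧ K + 1 ≤ G.met l}.Nonempty := by
    refine ⟨n * n + 1, fun G hG he => ?_⟩
    exfalso
    obtain ⟨t, ht⟩ := exists_shear G.pts
    have h1 := card_le_half G.pts G.edges (fun p => p.1 + t * p.2) ht G.edge_mem G.edge_ne
    have h2 := W_self_le (Adj G.edges) (Adj_self _ G.edge_ne) (Adj_le _) G.pts
    rw [hG] at h2
    omega
  have h := Nat.sInf_mem hne
  apply Nat.sInf_le
  intro G hG he
  obtain ⟨l, hl, hl2⟩ := h G hG he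
  exact ⟨l, hl, by omega⟩

theorem result (k b n : ℕ) (hk : 1 ≤ k) (hb : b ≤ k + 1) :
    (2 * (k + 1) ^ 2 ≤ n →
      n * k + n * b / (k + 1) + 1 ≤ f n (k ^ 2 + k + 1 + 2 * b) ∧
      f n (k ^ 2 + k + 1 + 2 * b) ≤ n * k + n * b / (k + 1) + 1 + ((k + 1) / 2 + 1)) ∧
    ((2 * (k + 1) ∣ n ∧ 4 * (k + 1) ≤ n) ∨ (2 * (k + 1) ^ 2 ≤ n ∧ (b = 0 ∨ b = k + 1)) →
      f n (k ^ 2 + k + 1 + 2 * b) = n * k + n * b / (k + 1) + 1) ∧
    (∀ K, f n K ≤ f n (K + 1)) := by
  -- division of `n`
  have hpos : 0 < 2 * (k + 1) := by omega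
  set m := n / (2 * (k + 1)) with hm
  set r := n % (2 * (k + 1)) with hr
  have hn : n = 2 * m * (k + 1) + r := by
    have := Nat.div_add_mod n (2 * (k + 1))
    rw [← hm, ← hr] at this
    rw [← this]; ring
  have hrlt : r < 2 * (k + 1) := Nat.mod_lt _ hpos
  have key : ∀ (G : GeomGraph), G.pts.card = n → AllLinesLe G.pts G.edges (k ^ 2 + k + 2 * b) →
      ∀ X : ℕ, (k + 1) * G.edges.card ≤ (k * (k + 1) + b) * G.pts.card + X →
      G.edges.card ≤ n * k + (n * b + X) / (k + 1) := by
    intro G hG _ X hX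
    rw [hG] at hX
    have e1 : (k * (k + 1) + b) * n + X = n * b + X + (k + 1) * (n * k) := by ring
    rw [e1] at hX
    have h1 : G.edges.card * (k + 1) ≤ n * b + X + (k + 1) * (n * k) := by
      rw [mul_comm]; exact hX
    have h2 := (Nat.le_div_iff_mul_le (show 0 < k + 1 by omega)).2 h1
    rw [Nat.add_mul_div_left _ _ (show 0 < k + 1 by omega)] at h2
    omega
  have hmk : 2 * (k + 1) ^ 2 ≤ n → k + 1 ≤ m := by
    intro h
    rw [hm, Nat.le_div_iff_mul_le hpos]
    calc (k + 1) * (2 * (k + 1)) = 2 * (k + 1) ^ 2 := by ring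
      _ ≤ n := h
  refine ⟨?_, ?_, f_mono n⟩
  · intro h
    have hm1 := hmk h
    refine ⟨lower n k b (by nlinarith) hb, ?_⟩
    have hX : ∃ X : ℕ, 2 * X ≤ (k + 1) * (k + 1) ∧ ∀ (G : GeomGraph), G.pts.card = n →
        AllLinesLe G.pts G.edges (k ^ 2 + k + 2 * b) →
        (k + 1) * G.edges.card ≤ (k * (k + 1) + b) * G.pts.card + X := by
      obtain ⟨d, hd⟩ : ∃ d, k + 1 = b + d := ⟨k + 1 - b, by omega⟩
      have hd' : k + 1 - b = d := by omega
      rcases le_or_gt r (2 * b) with h2 | h2
      · refine ⟨(k + 1 - b) * r, ?_, fun G hG hK => upper1 G k b m r hb (by omega) (by omega)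
          (by rw [hG]; exact hn) hK⟩
        rw [hd']
        have : d * r ≤ d * (2 * b) := Nat.mul_le_mul_left _ h2
        have h5 : 4 * (d * b) ≤ (b + d) * (b + d) := by nlinarith [sq_nonneg ((b : ℤ) - d)]
        rw [hd]
        nlinarith
      · refine ⟨b * (2 * (k + 1) - r), ?_, fun G hG hK => upper2 G k b (m + 1) (2 * (k + 1) - r) hk hb
          (by omega) (by omega) ?_ hK⟩
        · have h4 : 2 * (k + 1) - r ≤ 2 * d := by omega
          have : b * (2 * (k + 1) - r) ≤ b * (2 * d) := Nat.mul_le_mul_left _ h4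
          have h5 : 4 * (b * d) ≤ (b + d) * (b + d) := by nlinarith [sq_nonneg ((b : ℤ) - d)]
          rw [hd] at this ⊢
          nlinarith
        · rw [hG]
          have e : 2 * (m + 1) * (k + 1) = 2 * m * (k + 1) + 2 * (k + 1) := by ring
          omega
    obtain ⟨X, hX1, hX2⟩ := hX
    have := upper n k b (n * k + (n * b + X) / (k + 1)) (fun G hG hK => key G hG hK X (hX2 G hG hK))
    have h6 : (n * b + X) / (k + 1) ≤ n * b / (k + 1) + X / (k + 1) + 1 := by
      rw [Nat.add_div (show 0 < k + 1 by omega)]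
      split_ifs <;> omega
    have h7 : X / (k + 1) ≤ (k + 1) / 2 := by
      rw [Nat.le_div_iff_mul_le (by norm_num)]
      have h8 : X / (k + 1) * (k + 1) ≤ X := Nat.div_mul_le_self X (k + 1)
      have h9 : (X / (k + 1) * 2) * (k + 1) ≤ (k + 1) * (k + 1) := by nlinarith
      exact Nat.le_of_mul_le_mul_right h9 (by omega)
    omega
  · intro h
    have h3 : 2 * k + 3 ≤ n := by
      rcases h with ⟨_, h⟩ | ⟨h, _⟩
      · omega
      · nlinarith
    refine le_antisymm ?_ (lower n k b h3 hb)
    have hzero : ∀ (G : GeomGraph), G.pts.card = n → AllLinesLe G.pts G.edges (k ^ 2 + k + 2 * b) →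
        (k + 1) * G.edges.card ≤ (k * (k + 1) + b) * G.pts.card + 0 := by
      intro G hG hK
      rcases h with ⟨h, h'⟩ | ⟨h, rfl | rfl⟩
      · have hr0 : r = 0 := Nat.mod_eq_zero_of_dvd h
        have hm0 : 1 ≤ m := by
          rw [hm, Nat.le_div_iff_mul_le hpos]; omega
        have := upper1 G k b m 0 hb hm0 (by omega) (by rw [hG, hn, hr0]) hK
        simpa using this
      · have hm1 := hmk h
        have := upper2 G k 0 (m + 1) (2 * (k + 1) - r) hk hb (by omega) (by omega) (by
          rw [hG]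
          have e : 2 * (m + 1) * (k + 1) = 2 * m * (k + 1) + 2 * (k + 1) := by ring
          omega) hK
        simpa using this
      · have hm1 := hmk h
        have := upper1 G k (k + 1) m r hb (by omega) (by omega) (by rw [hG]; exact hn) hK
        simpa using this
    have := upper n k b (n * k + (n * b + 0) / (k + 1)) (fun G hG hK => key G hG hK 0 (hzero G hG hK))
    simpa using this

end Pool.Agent.Results.MP_b5bf4a_co.OddValues
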